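import Mathlib
import Pool.Agent.H47.SD.P
import Pool.Agent.H58.SD.X0

/-!
# MP_9415b6_co, Q2 (full answer)

`(ℤ_n^*, 𝓑_k^{x,*})`, the nonzero residues with the `k`-subsets of `ℤ_n \ {0}` of sum `x`, is a
`1`-design exactly in the following cases (`n ≥ 2`, `1 ≤ k ≤ n - 1`):

* `k = n - 1` and `x = n (n - 1) / 2` (one block);
* `n` is odd, `x = 0`, `2 ≤ k ≤ n - 3`, and one of the following holds:
  (A) `k` is smaller than every prime factor of `n`;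
  (B) `n - 1 - k` is smaller than every prime factor of `n`;
  (C) `n - 1` divides `(p - 1) k` for every prime factor `p` of `n`.
-/

set_option autoImplicit false

open Finset

namespace Pool.Agent.Results.MP_9415b6_co.NonzeroOneDesigns

/-- `𝓑_k^{x,*}`: the `k`-element subsets of `ℤ_n \ {0}` with sum `x`. -/
def blocks (n k : ℕ) [NeZero n] (x : ZMod n) : Finset (Finset (ZMod n)) :=
  univ.filter fun T => T.card = k ∧ (0 : ZMod n) ∉ T ∧ ∑ t ∈ T, t = x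

/-- `(ℤ_n^*, 𝓑_k^{x,*})` is a `1`-design. -/
def IsOneDesign (n k : ℕ) [NeZero n] (x : ZMod n) : Prop :=
  (blocks n k x).Nonempty ∧
    ∃ r : ℕ, ∀ y : ZMod n, y ≠ 0 → ((blocks n k x).filter fun T => y ∈ T).card = r

lemma blocks_eq (n k : ℕ) [NeZero n] (x : ZMod n) : blocks n k x = Pool.Agent.H47.SD.blk n k x := by
  ext T
  unfold blocks Pool.Agent.H47.SD.blk
  rw [mem_filter, mem_filter, mem_powersetCard, subset_erase]
  constructor
  · rintro ⟨_, h1, h2, h3⟩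
    exact ⟨⟨⟨subset_univ T, h2⟩, h1⟩, h3⟩
  · rintro ⟨⟨⟨_, h2⟩, h1⟩, h3⟩
    exact ⟨mem_univ _, h1, h2, h3⟩

lemma isOneDesign_iff (n k : ℕ) [NeZero n] (x : ZMod n) :
    IsOneDesign n k x ↔ Pool.Agent.H47.SD.Des n k x := by
  unfold IsOneDesign Pool.Agent.H47.SD.Des
  rw [blocks_eq]
  constructor
  · rintro ⟨h1, r, hr⟩
    exact ⟨h1, r, fun y hy => hr y (mem_erase.1 hy).1⟩
  · rintro ⟨h1, r, hr⟩
    exact ⟨h1, r, fun y hy => hr y (mem_erase.2 ⟨hy, mem_univ _⟩)⟩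

theorem result (n k : ℕ) [NeZero n] (hn : 2 ≤ n) (hk : 1 ≤ k) (hkn : k ≤ n - 1) (x : ZMod n) :
    IsOneDesign n k x ↔
      (k = n - 1 ∧ x = ((n * (n - 1) / 2 : ℕ) : ZMod n)) ∨
      (Odd n ∧ x = 0 ∧ 2 ≤ k ∧ k + 3 ≤ n ∧
        ((∀ p : ℕ, p.Prime → p ∣ n → k < p) ∨
          (∀ p : ℕ, p.Prime → p ∣ n → n - 1 - k < p) ∨
          (∀ p : ℕ, p.Prime → p ∣ n → n - 1 ∣ (p - 1) * k))) := by
  rw [isOneDesign_iff]
  exact Pool.Agent.H47.SD.des_iff
    (fun ho h1 h2 => Pool.Agent.H58.SD.x0_iff ho h1 h2) hn hk hkn x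

end Pool.Agent.Results.MP_9415b6_co.NonzeroOneDesigns
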